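import Pool.Agent.U620.TG.D

/-!
# Tangled labelings: an upper bound for every finite poset

A pair `(y, x)` of elements of a finite poset `P` is in `Pairs P` if there is an element `z ≤ x` such that
`y` is the only element strictly below `z`. We prove that `P` has at most `(n - 2)!` times the number of
these pairs tangled labelings, `n` the number of elements. So the conjectured bound `(n - 1)!` of Defant
and Kravitz holds if there are at most `n - 1` such pairs; this is the case if every `x` is in at most one pair
(`Unshared P`).

The proof. If `L` is tangled, then the element `y` with the largest label is minimal and has never moved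
during the first `n - 2` promotions (library), and the element `z > y` which then has the label `1` has no
lower element besides `y`. The elements passing through the position `n - 1` only go down, so the element
`x` with `L x = n - 1` satisfies `z ≤ x`.
-/

set_option autoImplicit false

namespace Pool.Agent.Results.MP_ac744f_co.PairBound

open Pool.Agent.W5h8.Tang Pool.Agent.U620.TG

/-- Every finite poset `P` with `n` elements has at most `(n - 2)!` times the number of pairs in `Pairs P`
tangled labelings; so it has at most `(n - 1)!` tangled labelings if there are at most `n - 1` such pairs, and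
in particular if `Unshared P` holds. -/
theorem result (P : Type) [PartialOrder P] [Fintype P] :
    {L : P → ℕ | Tangled L}.ncard ≤ (Fintype.card P - 2).factorial *
      {p : P × P | ∃ z, z ≤ p.2 ∧ ∀ u, u < z ↔ u = p.1}.ncard ∧
    ({p : P × P | ∃ z, z ≤ p.2 ∧ ∀ u, u < z ↔ u = p.1}.ncard ≤ Fintype.card P - 1 ∨ Unshared P →
      {L : P → ℕ | Tangled L}.ncard ≤ (Fintype.card P - 1).factorial) := by
  have hb := bound P
  refine ⟨hb, fun h => ?_⟩
  by_cases h2 : 2 ≤ Fintype.card P
  · have h3 : (Pairs P).ncard ≤ Fintype.card P - 1 := by
      rcases h with h | h
      · exact h
      · have h4 := card_pairs h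
        have h5 := exists_min h2
        omega
    obtain ⟨N, hN⟩ := Nat.exists_eq_add_of_le' h2
    have e1 : Fintype.card P - 2 = N := by omega
    have e2 : Fintype.card P - 1 = N + 1 := by omega
    rw [e1] at hb
    rw [e2] at h3 ⊢
    rw [Nat.factorial_succ, mul_comm]
    exact hb.trans (Nat.mul_le_mul_left _ h3)
  · rw [tangled_empty h2]
    exact Nat.zero_le _

end Pool.Agent.Results.MP_ac744f_co.PairBound
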